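import Pool.Agent.H3T0.B

/-!
# MP_012ca0_co: balanced patterns in Eulerian orientations

For every graph `G` with all degrees even, and every balanced oriented subgraph `H` of `G`, at
least the proportion `2 ^ (-e(H))` of all Eulerian orientations of `G` contains `H`.  Hence some
Eulerian orientation has at least as many balanced patterns as expected in a uniformly random
orientation.  For the complete graph on an odd number of vertices and Hamilton cycles this is
Thomassen's question.
-/

set_option autoImplicit false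

namespace Pool.Agent.Results.MP_012ca0_co.EulerianOrientations

open Finset H3T0

variable {n : ℕ}

/-- the arcs of the permutation `c`: `v → c v` for the vertices moved by `c`. -/
def permArcs (c : Equiv.Perm (Fin n)) : Finset (Fin n × Fin n) :=
  c.support.image (fun v => (v, c v))

lemma mem_permArcs {c : Equiv.Perm (Fin n)} {u v : Fin n} :
    (u, v) ∈ permArcs c ↔ c u ≠ u ∧ v = c u := by
  simp only [permArcs, mem_image, Equiv.Perm.mem_support, Prod.mk.injEq]
  constructor
  · rintro ⟨w, h1, rfl, rfl⟩
    exact ⟨h1, rfl⟩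
  · rintro ⟨h1, rfl⟩
    exact ⟨u, h1, rfl, rfl⟩

lemma card_permArcs {k : ℕ} {c : Equiv.Perm (Fin n)} (hc : c.cycleType = {k}) :
    (permArcs c).card = k := by
  rw [permArcs, card_image_of_injective _ (fun u v h => (Prod.mk.inj h).1),
    ← Equiv.Perm.sum_cycleType, hc, Multiset.sum_singleton]

lemma balanced_perm {G : SimpleGraph (Fin n)} {k : ℕ} (hk : 3 ≤ k) {c : Equiv.Perm (Fin n)}
    (hc : c.cycleType = {k}) (hG : ∀ v, c v ≠ v → G.Adj v (c v)) : IsBalancedIn G (permArcs c) := by
  have hcyc : c.IsCycle := Equiv.Perm.card_cycleType_eq_one.1 (by rw [hc]; rfl)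
  have hs : c.support.card = k := by
    have := hcyc.cycleType
    rw [hc] at this
    exact (Multiset.singleton_inj.1 this).symm
  refine ⟨?_, ?_, fun v => ?_⟩
  · rintro ⟨u, v⟩ he
    obtain ⟨h1, rfl⟩ := mem_permArcs.1 he
    exact hG u h1
  · intro u v h h'
    obtain ⟨h1, rfl⟩ := mem_permArcs.1 h
    obtain ⟨h2, h3⟩ := mem_permArcs.1 h'
    have : c ^ 2 = 1 := (hcyc.pow_eq_one_iff' h1).2 (by simpa [pow_two] using h3.symm)
    have := orderOf_dvd_of_pow_eq_one this
    rw [hcyc.orderOf, hs] at this
    have := Nat.le_of_dvd (by norm_num) this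
    omega
  · by_cases hv : c v = v
    · have e1 : (permArcs c).filter (fun e => e.1 = v) = ∅ := by
        refine filter_eq_empty_iff.2 ?_
        rintro ⟨x, y⟩ he rfl
        exact (mem_permArcs.1 he).1 hv
      have e2 : (permArcs c).filter (fun e => e.2 = v) = ∅ := by
        refine filter_eq_empty_iff.2 ?_
        rintro ⟨x, y⟩ he rfl
        obtain ⟨h1, h2⟩ := mem_permArcs.1 he
        simp only at hv h1 h2
        rw [h2] at hv
        exact h1 (c.injective hv)
      rw [e1, e2]
    · have e1 : (permArcs c).filter (fun e => e.1 = v) = {(v, c v)} := by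
        ext ⟨x, y⟩
        rw [mem_filter, mem_permArcs, mem_singleton, Prod.mk.injEq]
        constructor
        · rintro ⟨⟨-, rfl⟩, rfl⟩
          exact ⟨rfl, rfl⟩
        · rintro ⟨rfl, rfl⟩
          exact ⟨⟨hv, rfl⟩, rfl⟩
      have e2 : (permArcs c).filter (fun e => e.2 = v) = {(c.symm v, v)} := by
        ext ⟨x, y⟩
        rw [mem_filter, mem_permArcs, mem_singleton, Prod.mk.injEq]
        constructor
        · rintro ⟨⟨-, rfl⟩, rfl⟩
          exact ⟨(c.symm_apply_apply x).symm, rfl⟩
        · rintro ⟨rfl, rfl⟩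
          refine ⟨⟨?_, (c.apply_symm_apply _).symm⟩, rfl⟩
          rw [c.apply_symm_apply]
          intro h
          exact hv (by have := congrArg c h; rwa [c.apply_symm_apply] at this)
      rw [e1, e2, card_singleton, card_singleton]

/-- **Averaging.** Some Eulerian orientation has at least the expected weight of patterns. -/
theorem averaging {G : SimpleGraph (Fin n)} [DecidableRel G.Adj] (hG : ∀ v, Even (G.degree v))
    (S : Finset (Finset (Fin n × Fin n))) (hS : ∀ H ∈ S, IsBalancedIn G H)
    (w : Finset (Fin n × Fin n) → ℝ) (hw : ∀ H ∈ S, 0 ≤ w H) :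
    ∃ A, IsEulerianOrientation G A ∧
      ∑ H ∈ S, w H / 2 ^ H.card ≤ ∑ H ∈ S.filter (fun H => H ⊆ A), w H := by
  have hne := EO_nonempty hG
  have key : ∑ _A ∈ EO G, ∑ H ∈ S, w H / 2 ^ H.card ≤
      ∑ A ∈ EO G, ∑ H ∈ S.filter (fun H => H ⊆ A), w H := by
    simp only [sum_filter]
    rw [sum_comm, sum_comm (s := EO G)]
    refine sum_le_sum fun H hH => ?_
    rw [sum_const, nsmul_eq_mul, ← sum_filter, sum_const, nsmul_eq_mul]
    have h1 := correlation hG (hS H hH)
    have h2 : ((EO G).card : ℝ) ≤ 2 ^ H.card * (((EO G).filter (fun A => H ⊆ A)).card : ℝ) := by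
      exact_mod_cast h1
    have h3 : (0 : ℝ) < 2 ^ H.card := by positivity
    have h4 := mul_le_mul_of_nonneg_left h2 (div_nonneg (hw H hH) h3.le)
    calc ((EO G).card : ℝ) * (w H / 2 ^ H.card) = w H / 2 ^ H.card * (EO G).card := mul_comm _ _
      _ ≤ w H / 2 ^ H.card * (2 ^ H.card * ((EO G).filter (fun A => H ⊆ A)).card) := h4
      _ = ((EO G).filter (fun A => H ⊆ A)).card * w H := by field_simp
  obtain ⟨A, hA, h⟩ := exists_le_of_sum_le hne key
  exact ⟨A, mem_EO.1 hA, h⟩

/-- (1) In an even graph `G`, every balanced oriented subgraph `H` lies in at least the proportion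
`2 ^ (-e(H))` of the Eulerian orientations. (2) For every family of balanced oriented subgraphs
with nonnegative weights some Eulerian orientation of `G` has at least the weight expected in a
uniformly random orientation. (3) For every `k ≥ 3` some Eulerian orientation of `G` has at least
`2 ^ (-k)` times as many directed `k`-cycles as there are in `G` (both directions counted); `k = n`
are the Hamilton cycles. (4) For odd `n` and `3 ≤ k ≤ n` some regular tournament on `n` vertices has
at least `C(n,k) (k-1)! / 2 ^ k` directed cycles of length `k`; `k = n` is Thomassen's question. -/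
theorem result :
    (∀ (n : ℕ) (G : SimpleGraph (Fin n)), (∀ v, Even ({w | G.Adj v w}.ncard)) →
      (∀ H : Finset (Fin n × Fin n), IsBalancedIn G H →
        {A | IsEulerianOrientation G A}.ncard ≤
          2 ^ H.card * {A | IsEulerianOrientation G A ∧ H ⊆ A}.ncard) ∧
      (∀ S : Finset (Finset (Fin n × Fin n)), (∀ H ∈ S, IsBalancedIn G H) →
        ∀ w : Finset (Fin n × Fin n) → ℝ, (∀ H ∈ S, 0 ≤ w H) →
        ∃ A, IsEulerianOrientation G A ∧
          ∑ H ∈ S, w H / 2 ^ H.card ≤ ∑ H ∈ S.filter (fun H => H ⊆ A), w H) ∧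
      (∀ k : ℕ, 3 ≤ k → ∃ A, IsEulerianOrientation G A ∧
        ({c : Equiv.Perm (Fin n) | c.cycleType = {k} ∧ ∀ v, c v ≠ v → G.Adj v (c v)}.ncard : ℝ) /
            2 ^ k ≤
          ({c : Equiv.Perm (Fin n) | c.cycleType = {k} ∧
            ∀ v, c v ≠ v → (v, c v) ∈ A}.ncard : ℝ))) ∧
    (∀ n k : ℕ, Odd n → 3 ≤ k → k ≤ n →
      ∃ adj : Fin n → Fin n → Prop, (∀ v, ¬ adj v v) ∧ (∀ v w, v ≠ w → (adj v w ↔ ¬ adj w v)) ∧
        (∀ v, {w : Fin n | adj v w}.ncard = (n - 1) / 2) ∧
        ((n.choose k * (k - 1).factorial : ℕ) : ℝ) / 2 ^ k ≤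
          ({c : Equiv.Perm (Fin n) | c.cycleType = {k} ∧
            ∀ v, c v ≠ v → adj v (c v)}.ncard : ℝ)) := by
  classical
  have conv : ∀ (n : ℕ) (G : SimpleGraph (Fin n)), (∀ v, Even ({w | G.Adj v w}.ncard)) →
      ∀ v, Even (G.degree v) := by
    intro n G h v
    have := h v
    have e : {w | G.Adj v w} = ((G.neighborFinset v : Finset (Fin n)) : Set (Fin n)) := by
      ext w; simp
    rwa [e, Set.ncard_coe_finset, SimpleGraph.card_neighborFinset_eq_degree] at this
  have cycles : ∀ (n : ℕ) (G : SimpleGraph (Fin n)), (∀ v, Even (G.degree v)) →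
      ∀ k : ℕ, 3 ≤ k → ∃ A, IsEulerianOrientation G A ∧
        ({c : Equiv.Perm (Fin n) | c.cycleType = {k} ∧ ∀ v, c v ≠ v → G.Adj v (c v)}.ncard : ℝ) /
            2 ^ k ≤
          ({c : Equiv.Perm (Fin n) | c.cycleType = {k} ∧
            ∀ v, c v ≠ v → (v, c v) ∈ A}.ncard : ℝ) := by
    intro n G hG k hk
    set Q : Finset (Equiv.Perm (Fin n)) :=
      univ.filter (fun c => c.cycleType = {k} ∧ ∀ v, c v ≠ v → G.Adj v (c v)) with hQ
    have inj : Set.InjOn (permArcs (n := n)) Q := by
      intro c _ d _ h
      ext1 v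
      by_cases hv : c v = v
      · by_contra hne
        have h1 : (v, d v) ∈ permArcs d := mem_permArcs.2 ⟨fun h => hne (by rw [hv, h]), rfl⟩
        rw [← h] at h1
        exact (mem_permArcs.1 h1).1 hv
      · have h1 : (v, c v) ∈ permArcs c := mem_permArcs.2 ⟨hv, rfl⟩
        rw [h] at h1
        exact (mem_permArcs.1 h1).2
    have hk' : ∀ c ∈ Q, (permArcs c).card = k := fun c hc =>
      card_permArcs (mem_filter.1 hc).2.1
    obtain ⟨A, hA, h⟩ := averaging hG (Q.image permArcs) (by
      intro H hH
      obtain ⟨c, hc, rfl⟩ := mem_image.1 hH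
      have := (mem_filter.1 hc).2
      exact balanced_perm hk this.1 this.2) (fun _ => 1) (fun _ _ => zero_le_one)
    refine ⟨A, hA, ?_⟩
    rw [sum_image inj, filter_image, sum_image (inj.mono (coe_subset.2 (filter_subset _ _)))] at h
    rw [sum_congr rfl (fun c hc => by rw [hk' c hc]), sum_const, sum_const, nsmul_eq_mul,
      nsmul_eq_mul, mul_one_div, mul_one] at h
    have e1 : {c : Equiv.Perm (Fin n) | c.cycleType = {k} ∧ ∀ v, c v ≠ v → G.Adj v (c v)} =
        (Q : Set (Equiv.Perm (Fin n))) := by
      ext c; simp [hQ]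
    rw [e1, Set.ncard_coe_finset]
    refine h.trans (Nat.cast_le.2 ?_)
    rw [← Set.ncard_coe_finset]
    refine Set.ncard_le_ncard (fun c hc => ?_) (Set.toFinite _)
    obtain ⟨hc1, hc2⟩ := mem_filter.1 (mem_coe.1 hc)
    exact ⟨(mem_filter.1 hc1).2.1, fun v hv => hc2 (mem_permArcs.2 ⟨hv, rfl⟩)⟩
  refine ⟨fun n G hG => ⟨fun H hH => ?_, fun S hS w hw => ?_, cycles n G (conv n G hG)⟩, ?_⟩
  · have h := correlation (conv n G hG) hH
    have e1 : {A | IsEulerianOrientation G A} = ((EO G : Finset _) : Set _) := by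
      ext A; exact mem_EO.symm
    have e2 : {A | IsEulerianOrientation G A ∧ H ⊆ A} =
        (((EO G).filter (fun A => H ⊆ A) : Finset _) : Set _) := by
      ext A
      rw [mem_coe, mem_filter, mem_EO]
      rfl
    rw [e1, e2, Set.ncard_coe_finset, Set.ncard_coe_finset]
    exact h
  · exact averaging (conv n G hG) S hS w hw
  · intro n k hn hk hkn
    have hdeg : ∀ v, Even ({w | (⊤ : SimpleGraph (Fin n)).Adj v w}.ncard) := by
      intro v
      have e : {w | (⊤ : SimpleGraph (Fin n)).Adj v w} =
          ((univ.erase v : Finset (Fin n)) : Set (Fin n)) := by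
        ext w
        simp [eq_comm]
      rw [e, Set.ncard_coe_finset, card_erase_of_mem (mem_univ _), card_univ, Fintype.card_fin]
      obtain ⟨m, rfl⟩ := hn
      exact ⟨m, by omega⟩
    obtain ⟨A, hA, h⟩ := cycles n ⊤ (conv n ⊤ hdeg) k hk
    have h2 : ∀ v w, v ≠ w → ((v, w) ∈ A ↔ (w, v) ∉ A) := fun v w hvw => hA.2.1 v w hvw
    have h3 : ∀ v, (v, v) ∉ A := fun v hv => (hA.1 _ hv) rfl
    refine ⟨fun v w => (v, w) ∈ A, h3, h2, fun v => ?_, ?_⟩
    · have b := hA.2.2 v
      have o1 : (A.filter (fun e => e.1 = v)).card = (univ.filter (fun w => (v, w) ∈ A)).card := by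
        refine card_bij' (fun e _ => e.2) (fun w _ => (v, w)) ?_ ?_ ?_ ?_
        · rintro ⟨x, y⟩ he
          obtain ⟨h, rfl⟩ := mem_filter.1 he
          exact mem_filter.2 ⟨mem_univ _, h⟩
        · intro w hw
          exact mem_filter.2 ⟨(mem_filter.1 hw).2, rfl⟩
        · rintro ⟨x, y⟩ he
          obtain ⟨h, rfl⟩ := mem_filter.1 he
          rfl
        · intro w _; rfl
      have o2 : (A.filter (fun e => e.2 = v)).card = (univ.filter (fun w => (w, v) ∈ A)).card := by
        refine card_bij' (fun e _ => e.1) (fun w _ => (w, v)) ?_ ?_ ?_ ?_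
        · rintro ⟨x, y⟩ he
          obtain ⟨h, rfl⟩ := mem_filter.1 he
          exact mem_filter.2 ⟨mem_univ _, h⟩
        · intro w hw
          exact mem_filter.2 ⟨(mem_filter.1 hw).2, rfl⟩
        · rintro ⟨x, y⟩ he
          obtain ⟨h, rfl⟩ := mem_filter.1 he
          rfl
        · intro w _; rfl
      have tot : (univ.filter (fun w => (v, w) ∈ A)).card +
          (univ.filter (fun w => (w, v) ∈ A)).card = n - 1 := by
        rw [← card_union_of_disjoint]
        · have : univ.filter (fun w => (v, w) ∈ A) ∪ univ.filter (fun w => (w, v) ∈ A) =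
              univ.erase v := by
            ext w
            simp only [mem_union, mem_filter, mem_univ, true_and, mem_erase, and_true]
            constructor
            · rintro (h | h) rfl
              · exact h3 _ h
              · exact h3 _ h
            · intro hw
              have := h2 v w (Ne.symm hw)
              tauto
          rw [this, card_erase_of_mem (mem_univ _), card_univ, Fintype.card_fin]
        · rw [disjoint_left]
          intro w a b
          have a := (mem_filter.1 a).2
          have b := (mem_filter.1 b).2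
          by_cases hw : v = w
          · subst hw; exact h3 _ a
          · exact (h2 v w hw).1 a b
      have e : {w : Fin n | (v, w) ∈ A} =
          ((univ.filter (fun w => (v, w) ∈ A) : Finset (Fin n)) : Set (Fin n)) := by simp
      rw [e, Set.ncard_coe_finset]
      omega
    · refine le_trans (le_of_eq ?_) h
      congr 1
      have e : {c : Equiv.Perm (Fin n) | c.cycleType = {k} ∧
          ∀ v, c v ≠ v → (⊤ : SimpleGraph (Fin n)).Adj v (c v)} =
          ((univ.filter (fun c : Equiv.Perm (Fin n) => c.cycleType = {k}) :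
            Finset (Equiv.Perm (Fin n))) : Set (Equiv.Perm (Fin n))) := by
        ext c
        simp only [Set.mem_ofPred_eq, coe_filter, mem_univ, true_and, and_iff_left_iff_imp]
        exact fun _ v hv => Ne.symm hv
      rw [e, Set.ncard_coe_finset, Equiv.Perm.card_of_cycleType_singleton (by omega) (by simpa)]
      simp [mul_comm]

end Pool.Agent.Results.MP_012ca0_co.EulerianOrientations
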